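import Pool.Agent.Y554.SN.Stm
import Pool.Agent.H12R2.Sep.RectDual
import Pool.Agent.H389R2.NS.D0
import Pool.Agent.H985R3.TA.INDI

/-!
# Project SN, part SIDET: annuli centred at the top and bottom sides of the square
-/

set_option autoImplicit false

namespace Pool.Agent.Y185.SN

open H974 H12S H985T H389NS H389NS.D0 Finset Pool.Agent.Y554.DP Pool.Agent.Y554.SN

/-- first entrance into a zone -/
theorem entr {H H2 : Set Edg} {P : Vtx → Prop}
    (hH : ∀ e ∈ H, e ∈ H2 ∨ (P (src e) ∧ P (tgt e)))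
    {u v : Vtx} (h : Reach H u v) : Reach H2 u v ∨ ∃ w, P w ∧ Reach H2 u w := by
  induction h with
  | refl => exact Or.inl (Reach.refl _ _)
  | @tail w w' _ hs ih =>
    rcases ih with ih | ih
    · obtain ⟨e, he, hc⟩ := hs
      rcases hH e he with h1 | ⟨h1, h2⟩
      · exact Or.inl (ih.trans (Adj.reach ⟨e, h1, hc⟩))
      · right
        refine ⟨w, ?_, ih⟩
        rcases hc with ⟨h3, -⟩ | ⟨-, h3⟩
        · rw [← h3]; exact h1
        · rw [← h3]; exact h2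
    · exact Or.inr ih

/-- A duality map around `z`, which maps the dual line of a horizontal side to the line `x = 0`. -/
structure DMap (n : ℕ) (z : ℤ × ℤ) (a N : ℕ) (θ : Edg ≃ Edg) : Prop where
  hB : ∀ e ∈ blk z a ∩ boxE n,
    inR (-((a + 1 : ℕ) : ℤ)) (a + 1 : ℕ) (-((a + 1 : ℕ) : ℤ)) (a + 1 : ℕ) (src (θ e)) ∧
    inR (-((a + 1 : ℕ) : ℤ)) (a + 1 : ℕ) (-((a + 1 : ℕ) : ℤ)) (a + 1 : ℕ) (tgt (θ e))
  hS : ∀ e ∈ boxE n, 0 ≤ (src (θ e)).1 ∧ 0 ≤ (tgt (θ e)).1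
  hA : ∀ e ∈ boxE n, θ e ∈ An (a + 1) (N - 1) → e ∈ Anz z a N
  hM : ∀ e ∈ HA (a + 1) (N - 1), θ.symm e ∈ boxE n ∨ ((src e).1 = 0 ∧ (tgt e).1 = 0)
  cr : ∀ G : Finset Edg, G ⊆ boxE n → (Cn (Lf n) (Rt n) (↑G : Set Edg) ↔
    ¬ ∃ p q : Vtx, p.1 = 2 * n + 1 ∧ q.1 = 0 ∧ Reach (θ '' (↑(boxE n \ G) : Set Edg)) p q)

theorem mem_HA {a N : ℕ} {e : Edg} :
    e ∈ HA a N ↔ e ∈ An a N ∧ 0 ≤ (src e).1 ∧ 0 ≤ (tgt e).1 := by
  unfold HA
  rw [mem_filter]

/-- the deterministic part -/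
theorem det {n a N : ℕ} {z : ℤ × ℤ} {θ : Edg ≃ Edg} (h : DMap n z a N θ) (ha : a + 1 ≤ N - 1)
    (hNn : N ≤ n) {F : Finset Edg} (hU : UE n z a N F) :
    YS (a + 1) (N - 1) (↑((boxE n \ F).map θ.toEmbedding) : Set Edg) := by
  obtain ⟨F', hF', hFF, hp, hn⟩ := hU
  have h1 : Cn (Lf n) (Rt n) (↑(F' ∪ (blk z a ∩ boxE n)) : Set Edg) := by
    rw [coe_union]; exact hp
  have h1' : ¬ Cn (Lf n) (Rt n) (↑(F' \ (blk z a ∩ boxE n)) : Set Edg) := by
    rw [coe_sdiff]; exact hn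
  have h2 := (h.cr _ (union_subset hF' inter_subset_right)).1 h1
  have h3 : ∃ p q : Vtx, p.1 = 2 * n + 1 ∧ q.1 = 0 ∧
      Reach (θ '' (↑(boxE n \ (F' \ (blk z a ∩ boxE n))) : Set Edg)) p q := by
    by_contra hcon
    exact h1' ((h.cr _ (sdiff_subset.trans hF')).2 hcon)
  obtain ⟨p, q, hp1, hq0, hr⟩ := h3
  set H2 : Set Edg := θ '' (↑(boxE n \ (F' ∪ (blk z a ∩ boxE n))) : Set Edg) with hH2
  have hen := entr (H2 := H2) (P := inR (-((a + 1 : ℕ) : ℤ)) (a + 1 : ℕ)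
    (-((a + 1 : ℕ) : ℤ)) (a + 1 : ℕ)) (by
      rintro _ ⟨e, he, rfl⟩
      rw [mem_coe, mem_sdiff, mem_sdiff, not_and, not_not] at he
      by_cases heB : e ∈ blk z a ∩ boxE n
      · exact Or.inr (h.hB e heB)
      · left
        refine ⟨e, ?_, rfl⟩
        rw [mem_coe, mem_sdiff, mem_union]
        refine ⟨he.1, ?_⟩
        rintro (h4 | h4)
        · exact heB (he.2 h4)
        · exact heB h4) hr
  rcases hen with h4 | ⟨w, hw, hr2⟩
  · exact absurd ⟨p, q, hp1, hq0, h4⟩ h2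
  have hw' : inR (-((N - 1 : ℕ) : ℤ)) (N - 1 : ℕ) (-((N - 1 : ℕ) : ℤ)) (N - 1 : ℕ) w := by
    unfold inR at hw ⊢
    omega
  obtain ⟨v, hv1, hv2, hv3⟩ := first_exit hw' hr2.symm (by omega)
  obtain ⟨u, hu, hr3⟩ := INDI_pexit (b := a + 1) (N := N - 1) ha
    (G := H2 ∩ ↑(boxE (N - 1))) (F := H2) Set.inter_subset_left
    (fun e he => mem_coe.1 he.2) ⟨hv1, hv2⟩ hv3.symm hw
  have hmem : ∀ e : Edg, e ∈ Anz z a N → (e ∈ F' ↔ e ∈ F) ∧ e ∉ blk z a := by
    intro e he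
    have h5 : e ∈ F' ∩ Anz z a N ↔ e ∈ F ∩ Anz z a N := by rw [hFF]
    rw [mem_inter, mem_inter] at h5
    refine ⟨⟨fun h6 => (h5.1 ⟨h6, he⟩).1, fun h6 => (h5.2 ⟨h6, he⟩).1⟩, ?_⟩
    unfold Anz at he
    exact (mem_sdiff.1 he).2
  have hk : (↑((boxE n \ F).map θ.toEmbedding) : Set Edg) ∩ ↑(HA (a + 1) (N - 1)) ⊆ H2 := by
    rintro e ⟨he1, he2⟩
    rw [mem_coe, mem_map] at he1
    obtain ⟨e0, he0, rfl⟩ := he1
    rw [mem_sdiff] at he0
    have h6 := h.hA e0 he0.1 (mem_HA.1 (mem_coe.1 he2)).1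
    obtain ⟨h7, h8⟩ := hmem e0 h6
    refine ⟨e0, ?_, rfl⟩
    rw [mem_coe, mem_sdiff, mem_union, mem_inter]
    refine ⟨he0.1, ?_⟩
    rintro (h9 | ⟨h9, -⟩)
    · exact he0.2 (h7.1 h9)
    · exact h8 h9
  have hk2 : H2 ∩ ↑(An (a + 1) (N - 1)) ⊆
      (↑((boxE n \ F).map θ.toEmbedding) : Set Edg) ∩ ↑(HA (a + 1) (N - 1)) := by
    rintro _ ⟨⟨e0, he0, rfl⟩, he2⟩
    rw [mem_coe, mem_sdiff, mem_union] at he0
    have h6 := h.hA e0 he0.1 (mem_coe.1 he2)
    obtain ⟨h7, h8⟩ := hmem e0 h6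
    constructor
    · rw [mem_coe, mem_map]
      refine ⟨e0, ?_, rfl⟩
      rw [mem_sdiff]
      exact ⟨he0.1, fun h9 => he0.2 (Or.inl (h7.2 h9))⟩
    · rw [mem_coe, mem_HA]
      exact ⟨mem_coe.1 he2, h.hS e0 he0.1⟩
  refine ⟨u, v, hu, ⟨hv1, hv2⟩, hr3.mono hk2, ?_⟩
  intro x hx hr4
  apply h2
  refine ⟨p, x, hp1, hx, ?_⟩
  exact (hr2.trans (hv3.mono Set.inter_subset_left)).trans
    ((hr3.mono Set.inter_subset_left).symm.trans (hr4.mono hk))

theorem YS_add {a N : ℕ} {F G : Set Edg} (hG : G ⊆ F)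
    (h : ∀ e ∈ F ∩ ↑(HA a N), e ∈ G ∨ ((src e).1 = 0 ∧ (tgt e).1 = 0)) (hY : YS a N G) :
    YS a N F := by
  obtain ⟨u, v, hu, hv, hr, hno⟩ := hY
  refine ⟨u, v, hu, hv, hr.mono (Set.inter_subset_inter_left _ hG), ?_⟩
  intro w hw hr2
  have := entr (H2 := G ∩ ↑(HA a N)) (P := fun v => v.1 = 0) (by
    intro e he
    rcases h e he with h1 | h1
    · exact Or.inl ⟨h1, he.2⟩
    · exact Or.inr h1) hr2
  rcases this with h1 | ⟨w', hw', h1⟩
  · exact hno w hw h1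
  · exact hno w' hw' h1

theorem YS_local {a N : ℕ} {F G : Finset Edg} (h : F ∩ HA a N = G ∩ HA a N) :
    YS a N (↑F : Set Edg) ↔ YS a N (↑G : Set Edg) := by
  unfold YS
  rw [← coe_inter, ← coe_inter, h]

/-- the probabilistic part -/
theorem prob {n a N : ℕ} {z : ℤ × ℤ} {θ : Edg ≃ Edg} (h : DMap n z a N θ) (ha : a + 1 ≤ N - 1)
    (hNn : N ≤ n) {x : ℝ} (hx0 : 0 ≤ x) (hx1 : x ≤ 1) :
    P2 (fun _ => x) (boxE n) (UE n z a N) (UE n z a N) ≤
      P2 (fun _ => x) (HA (a + 1) (N - 1)) (fun F => YS (a + 1) (N - 1) ↑F)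
        (fun F => YS (a + 1) (N - 1) ↑F) := by
  have ok : ∀ (S : Finset Edg), ∀ e ∈ S, 0 ≤ (fun _ : Edg => x) e ∧ (fun _ : Edg => x) e ≤ 1 :=
    fun _ _ _ => ⟨hx0, hx1⟩
  set M := (boxE n).map θ.toEmbedding with hMdef
  set A := HA (a + 1) (N - 1) with hAdef
  have e1 : P2 (fun _ => x) (boxE n) (UE n z a N) (UE n z a N) ≤
      P2 (fun _ => x) (boxE n)
        (fun F => YS (a + 1) (N - 1) (↑((boxE n \ F).map θ.toEmbedding) : Set Edg))
        (fun F => YS (a + 1) (N - 1) (↑((boxE n \ F).map θ.toEmbedding) : Set Edg)) :=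
    P2_mono (ok _) (fun F _ hF => det h ha hNn hF) (fun F _ hF => det h ha hNn hF)
  have e2 := P2_compl (fun _ : Edg => x) (boxE n)
    (fun F => YS (a + 1) (N - 1) (↑(F.map θ.toEmbedding) : Set Edg))
    (fun F => YS (a + 1) (N - 1) (↑(F.map θ.toEmbedding) : Set Edg))
  have e3 := P2_map θ.toEmbedding (fun _ : Edg => x) (boxE n)
    (fun F => YS (a + 1) (N - 1) (↑F : Set Edg)) (fun F => YS (a + 1) (N - 1) (↑F : Set Edg))
  have e4 : P2 (fun _ => x) M (fun F => YS (a + 1) (N - 1) (↑F : Set Edg))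
      (fun F => YS (a + 1) (N - 1) (↑F : Set Edg)) =
      P2 (fun _ => x) (M ∩ A) (fun F => YS (a + 1) (N - 1) (↑F : Set Edg))
      (fun F => YS (a + 1) (N - 1) (↑F : Set Edg)) := by
    have hl : ∀ F, F ⊆ M → (YS (a + 1) (N - 1) (↑F : Set Edg) ↔
        YS (a + 1) (N - 1) (↑(F ∩ (M ∩ A)) : Set Edg)) := by
      intro F hF
      apply YS_local
      ext e
      simp only [mem_inter]
      constructor
      · rintro ⟨h1, h2⟩; exact ⟨⟨h1, hF h1, h2⟩, h2⟩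
      · rintro ⟨⟨h1, -⟩, h2⟩; exact ⟨h1, h2⟩
    exact P2_local inter_subset_left hl hl
  have e5 : P2 (fun _ => x) (M ∩ A) (fun F => YS (a + 1) (N - 1) (↑F : Set Edg))
      (fun F => YS (a + 1) (N - 1) (↑F : Set Edg)) ≤
      P2 (fun _ => x) (M ∩ A) (fun F => YS (a + 1) (N - 1) (↑(F ∩ M) : Set Edg))
      (fun F => YS (a + 1) (N - 1) (↑(F ∩ M) : Set Edg)) := by
    have hl : ∀ F, F ⊆ M ∩ A → YS (a + 1) (N - 1) (↑F : Set Edg) →
        YS (a + 1) (N - 1) (↑(F ∩ M) : Set Edg) := by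
      intro F hF hY
      rw [inter_eq_left.2 (hF.trans inter_subset_left)]
      exact hY
    exact P2_mono (ok _) hl hl
  have e6 : P2 (fun _ => x) A (fun F => YS (a + 1) (N - 1) (↑(F ∩ M) : Set Edg))
      (fun F => YS (a + 1) (N - 1) (↑(F ∩ M) : Set Edg)) =
      P2 (fun _ => x) (M ∩ A) (fun F => YS (a + 1) (N - 1) (↑(F ∩ M) : Set Edg))
      (fun F => YS (a + 1) (N - 1) (↑(F ∩ M) : Set Edg)) := by
    have hl : ∀ F, F ⊆ A → (YS (a + 1) (N - 1) (↑(F ∩ M) : Set Edg) ↔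
        YS (a + 1) (N - 1) (↑(F ∩ (M ∩ A) ∩ M) : Set Edg)) := by
      intro F hF
      apply YS_local
      ext e
      simp only [mem_inter]
      constructor
      · rintro ⟨⟨h1, h2⟩, h3⟩; exact ⟨⟨⟨h1, h2, h3⟩, h2⟩, h3⟩
      · rintro ⟨⟨⟨h1, -⟩, h2⟩, h3⟩; exact ⟨⟨h1, h2⟩, h3⟩
    exact P2_local inter_subset_right hl hl
  have e7 : P2 (fun _ => x) A (fun F => YS (a + 1) (N - 1) (↑(F ∩ M) : Set Edg))
      (fun F => YS (a + 1) (N - 1) (↑(F ∩ M) : Set Edg)) ≤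
      P2 (fun _ => x) A (fun F => YS (a + 1) (N - 1) (↑F : Set Edg))
      (fun F => YS (a + 1) (N - 1) (↑F : Set Edg)) := by
    have hl : ∀ F, F ⊆ A → YS (a + 1) (N - 1) (↑(F ∩ M) : Set Edg) →
        YS (a + 1) (N - 1) (↑F : Set Edg) := by
      intro F hF hY
      refine YS_add (by rw [coe_inter]; exact Set.inter_subset_left) ?_ hY
      rintro e ⟨he1, he2⟩
      rcases h.hM e (mem_coe.1 he2) with h1 | h1
      · left
        rw [mem_coe, mem_inter, hMdef, mem_map]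
        exact ⟨mem_coe.1 he1, θ.symm e, h1, by simp⟩
      · exact Or.inr h1
    exact P2_mono (ok _) hl hl
  calc P2 (fun _ => x) (boxE n) (UE n z a N) (UE n z a N) ≤ _ := e1
    _ = _ := e2.symm
    _ = _ := e3.symm
    _ = _ := e4
    _ ≤ _ := e5
    _ = _ := e6.symm
    _ ≤ _ := e7

/-! ### the two duality maps -/

/-- The symmetry for the top side. -/
def gT (m c : ℤ) : LSym where
  φ := { toFun := fun e => if e.2.2 then (m - e.2.1, e.1 - c, false)
            else (m - e.2.1 - 1, e.1 - c, true)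
         invFun := fun e => if e.2.2 then (e.2.1 + c, m - e.1 - 1, false)
            else (e.2.1 + c, m - e.1, true)
         left_inv := by rintro ⟨x, y, _ | _⟩ <;> (simp; try ring)
         right_inv := by rintro ⟨x, y, _ | _⟩ <;> (simp; try ring) }
  ψ := { toFun := fun u => (m - u.2, u.1 - c)
         invFun := fun u => (u.2 + c, m - u.1)
         left_inv := by intro e; simp
         right_inv := by intro e; simp }
  compat := by
    rintro ⟨x, y, _ | _⟩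
    · right; simp; ring
    · left; simp; ring

/-- The symmetry for the bottom side. -/
def gB (m c : ℤ) : LSym where
  φ := { toFun := fun e => if e.2.2 then (e.2.1 + m + 1, e.1 - c, false)
            else (e.2.1 + m + 1, e.1 - c, true)
         invFun := fun e => if e.2.2 then (e.2.1 + c, e.1 - m - 1, false)
            else (e.2.1 + c, e.1 - m - 1, true)
         left_inv := by rintro ⟨x, y, _ | _⟩ <;> (simp; try ring)
         right_inv := by rintro ⟨x, y, _ | _⟩ <;> (simp; try ring) }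
  ψ := { toFun := fun u => (u.2 + m + 1, u.1 - c)
         invFun := fun u => (u.2 + c, u.1 - m - 1)
         left_inv := fun u => Prod.ext (by show u.1 - c + c = u.1; ring)
           (by show u.2 + m + 1 - m - 1 = u.2; ring)
         right_inv := fun u => Prod.ext (by show u.1 - m - 1 + m + 1 = u.1; ring)
           (by show u.2 + c - c = u.2; ring) }
  compat := by
    rintro ⟨x, y, _ | _⟩
    · left; simp; ring
    · left; simp; ring

theorem cr_lem {n : ℕ} {G : Finset Edg} (hn : 0 < n) (hG : G ⊆ boxE n) :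
    Cn (Lf n) (Rt n) (↑G : Set Edg) ↔
      ¬ Cn {v | v.2 = -(n:ℤ) - 1} {v | v.2 = (n:ℤ)} (↑(dmp (boxE n \ G)) : Set Edg) :=
  rect_dual (a := -(n:ℤ)) (b := n) (c := -(n:ℤ)) (d := n) (by omega) (by omega) G hG

theorem dmapT {n a N : ℕ} {z : ℤ × ℤ} (hz : z.2 = n) (hN : |z.1| + N ≤ n) (ha : a + 1 ≤ N - 1) :
    DMap n z a N (dl.trans (gT n z.1).φ) := by
  obtain ⟨z1, z2⟩ := z
  simp only at hz hN ⊢
  have hz1 : z1 ≤ |z1| := le_abs_self _
  have hz2 : -z1 ≤ |z1| := neg_le_abs _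
  refine ⟨?_, ?_, ?_, ?_, ?_⟩
  · rintro ⟨x, y, _ | _⟩ he
    · rw [mem_inter] at he
      unfold blk boxE at he
      rw [mem_RE_false, mem_RE_false] at he
      simp only at he
      show inR _ _ _ _ ((n:ℤ) - y, x - 1 - z1) ∧ inR _ _ _ _ ((n:ℤ) - y, x - 1 - z1 + 1)
      unfold inR
      simp only
      push_cast
      omega
    · rw [mem_inter] at he
      unfold blk boxE at he
      rw [mem_RE_true, mem_RE_true] at he
      simp only at he
      show inR _ _ _ _ ((n:ℤ) - (y - 1) - 1, x - z1) ∧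
        inR _ _ _ _ ((n:ℤ) - (y - 1) - 1 + 1, x - z1)
      unfold inR
      simp only
      push_cast
      omega
  · rintro ⟨x, y, _ | _⟩ he
    · unfold boxE at he
      rw [mem_RE_false] at he
      show 0 ≤ (n:ℤ) - y ∧ 0 ≤ (n:ℤ) - y
      omega
    · unfold boxE at he
      rw [mem_RE_true] at he
      show 0 ≤ (n:ℤ) - (y - 1) - 1 ∧ 0 ≤ (n:ℤ) - (y - 1) - 1 + 1
      omega
  · rintro ⟨x, y, _ | _⟩ he h
    · replace h : ((n:ℤ) - y, x - 1 - z1, false) ∈ An (a + 1) (N - 1) := h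
      rw [INDI_memAn] at h
      unfold boxE at he h
      rw [mem_RE_false, mem_RE_false] at h
      rw [mem_RE_false] at he
      unfold Anz blk
      rw [mem_sdiff, mem_RE_false, mem_RE_false]
      push_cast at h ⊢
      omega
    · replace h : ((n:ℤ) - (y - 1) - 1, x - z1, true) ∈ An (a + 1) (N - 1) := h
      rw [INDI_memAn] at h
      unfold boxE at he h
      rw [mem_RE_true, mem_RE_true] at h
      rw [mem_RE_true] at he
      unfold Anz blk
      rw [mem_sdiff, mem_RE_true, mem_RE_true]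
      push_cast at h ⊢
      omega
  · rintro ⟨x, y, _ | _⟩ he
    · rw [mem_HA, INDI_memAn] at he
      unfold boxE at he
      rw [mem_RE_false, mem_RE_false] at he
      simp only [src_mk, tgt_false] at he ⊢
      show (y + z1 + 1, (n:ℤ) - x, false) ∈ boxE n ∨ _
      unfold boxE
      rw [mem_RE_false]
      omega
    · rw [mem_HA, INDI_memAn] at he
      unfold boxE at he
      rw [mem_RE_true, mem_RE_true] at he
      simp only [src_mk, tgt_true] at he ⊢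
      show (y + z1, (n:ℤ) - x - 1 + 1, true) ∈ boxE n ∨ _
      unfold boxE
      rw [mem_RE_true]
      omega
  · intro G hG
    rw [cr_lem (by omega) hG, not_iff_not]
    have him : ((dl.trans (gT n z1).φ) '' (↑(boxE n \ G) : Set Edg)) =
        (gT n z1).φ '' (↑(dmp (boxE n \ G)) : Set Edg) := by
      rw [coe_dmp, Set.image_image]
      rfl
    rw [him]
    constructor
    · rintro ⟨u, hu, v, hv, hr⟩
      have hu' : u.2 = -(n:ℤ) - 1 := hu
      have hv' : v.2 = (n:ℤ) := hv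
      refine ⟨(gT n z1).ψ u, (gT n z1).ψ v, ?_, ?_, (gT n z1).reach hr⟩
      · show (n:ℤ) - u.2 = _
        omega
      · show (n:ℤ) - v.2 = _
        omega
    · rintro ⟨p, q, hp, hq, hr⟩
      have hp' : p = (gT n z1).ψ ((gT n z1).ψ.symm p) := by simp
      have hq' : q = (gT n z1).ψ ((gT n z1).ψ.symm q) := by simp
      rw [hp', hq', (gT n z1).reach_iff] at hr
      refine ⟨_, ?_, _, ?_, hr⟩
      · show (n:ℤ) - p.1 = -(n:ℤ) - 1
        omega
      · show (n:ℤ) - q.1 = n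
        omega

theorem dmapB {n a N : ℕ} {z : ℤ × ℤ} (hz : z.2 = -(n:ℤ)) (hN : |z.1| + N ≤ n)
    (ha : a + 1 ≤ N - 1) : DMap n z a N (dl.trans (gB n z.1).φ) := by
  obtain ⟨z1, z2⟩ := z
  simp only at hz hN ⊢
  have hz1 : z1 ≤ |z1| := le_abs_self _
  have hz2 : -z1 ≤ |z1| := neg_le_abs _
  refine ⟨?_, ?_, ?_, ?_, ?_⟩
  · rintro ⟨x, y, _ | _⟩ he
    · rw [mem_inter] at he
      unfold blk boxE at he
      rw [mem_RE_false, mem_RE_false] at he
      simp only at he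
      show inR _ _ _ _ (y + (n:ℤ) + 1, x - 1 - z1) ∧ inR _ _ _ _ (y + (n:ℤ) + 1, x - 1 - z1 + 1)
      unfold inR
      simp only
      push_cast
      omega
    · rw [mem_inter] at he
      unfold blk boxE at he
      rw [mem_RE_true, mem_RE_true] at he
      simp only at he
      show inR _ _ _ _ (y - 1 + (n:ℤ) + 1, x - z1) ∧
        inR _ _ _ _ (y - 1 + (n:ℤ) + 1 + 1, x - z1)
      unfold inR
      simp only
      push_cast
      omega
  · rintro ⟨x, y, _ | _⟩ he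
    · unfold boxE at he
      rw [mem_RE_false] at he
      show 0 ≤ y + (n:ℤ) + 1 ∧ 0 ≤ y + (n:ℤ) + 1
      omega
    · unfold boxE at he
      rw [mem_RE_true] at he
      show 0 ≤ y - 1 + (n:ℤ) + 1 ∧ 0 ≤ y - 1 + (n:ℤ) + 1 + 1
      omega
  · rintro ⟨x, y, _ | _⟩ he h
    · replace h : (y + (n:ℤ) + 1, x - 1 - z1, false) ∈ An (a + 1) (N - 1) := h
      rw [INDI_memAn] at h
      unfold boxE at he h
      rw [mem_RE_false, mem_RE_false] at h
      rw [mem_RE_false] at he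
      unfold Anz blk
      rw [mem_sdiff, mem_RE_false, mem_RE_false]
      push_cast at h ⊢
      omega
    · replace h : (y - 1 + (n:ℤ) + 1, x - z1, true) ∈ An (a + 1) (N - 1) := h
      rw [INDI_memAn] at h
      unfold boxE at he h
      rw [mem_RE_true, mem_RE_true] at h
      rw [mem_RE_true] at he
      unfold Anz blk
      rw [mem_sdiff, mem_RE_true, mem_RE_true]
      push_cast at h ⊢
      omega
  · rintro ⟨x, y, _ | _⟩ he
    · rw [mem_HA, INDI_memAn] at he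
      unfold boxE at he
      rw [mem_RE_false, mem_RE_false] at he
      simp only [src_mk, tgt_false] at he ⊢
      show (y + z1 + 1, x - (n:ℤ) - 1, false) ∈ boxE n ∨ _
      unfold boxE
      rw [mem_RE_false]
      omega
    · rw [mem_HA, INDI_memAn] at he
      unfold boxE at he
      rw [mem_RE_true, mem_RE_true] at he
      simp only [src_mk, tgt_true] at he ⊢
      show (y + z1, x - (n:ℤ) - 1 + 1, true) ∈ boxE n ∨ _
      unfold boxE
      rw [mem_RE_true]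
      omega
  · intro G hG
    rw [cr_lem (by omega) hG, not_iff_not]
    have him : ((dl.trans (gB n z1).φ) '' (↑(boxE n \ G) : Set Edg)) =
        (gB n z1).φ '' (↑(dmp (boxE n \ G)) : Set Edg) := by
      rw [coe_dmp, Set.image_image]
      rfl
    rw [him]
    constructor
    · rintro ⟨u, hu, v, hv, hr⟩
      have hu' : u.2 = -(n:ℤ) - 1 := hu
      have hv' : v.2 = (n:ℤ) := hv
      refine ⟨(gB n z1).ψ v, (gB n z1).ψ u, ?_, ?_, (gB n z1).reach hr.symm⟩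
      · show v.2 + (n:ℤ) + 1 = _
        omega
      · show u.2 + (n:ℤ) + 1 = _
        omega
    · rintro ⟨p, q, hp, hq, hr⟩
      have hp' : p = (gB n z1).ψ ((gB n z1).ψ.symm p) := by simp
      have hq' : q = (gB n z1).ψ ((gB n z1).ψ.symm q) := by simp
      rw [hp', hq', (gB n z1).reach_iff] at hr
      refine ⟨_, ?_, _, ?_, hr.symm⟩
      · show q.1 - (n:ℤ) - 1 = -(n:ℤ) - 1
        omega
      · show p.1 - (n:ℤ) - 1 = n
        omega

/-- SIDE for the top and bottom sides. -/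
theorem sideTB (hy : S_YB) : ∃ C : ℝ, 0 < C ∧ ∀ (n a N : ℕ) (z : ℤ × ℤ) (x : ℝ), 1 ≤ a → a ≤ N →
    |z.2| = n → |z.1| + N ≤ n →
    0 ≤ x → x < 1 → 1 ≤ (1 - x) * (a:ℝ) ^ (3 / 4 : ℝ) →
    P2 (fun _ => x) (boxE n) (UE n z a N) (UE n z a N) ≤ C * ((a:ℝ) / N) ^ (11 / 6 : ℝ) := by
  obtain ⟨C, hC, hY⟩ := hy
  refine ⟨C * 4 ^ (11 / 6 : ℝ) + 4, by positivity, ?_⟩
  intro n a N z x ha haN hz hN hx0 hx1 hxa
  have ha' : (1:ℝ) ≤ a := by exact_mod_cast ha
  have hN' : (1:ℝ) ≤ N := by exact_mod_cast ha.trans haN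
  have ok : ∀ e ∈ boxE n, 0 ≤ (fun _ : Edg => x) e ∧ (fun _ : Edg => x) e ≤ 1 :=
    fun _ _ => ⟨hx0, hx1.le⟩
  have hr0 : 0 ≤ ((a:ℝ) / N) ^ (11 / 6 : ℝ) := by positivity
  have hNn : N ≤ n := by
    have := abs_nonneg z.1
    omega
  by_cases hc : a + 1 ≤ N - 1
  · have hD : ∃ θ : Edg ≃ Edg, DMap n z a N θ := by
      rcases (abs_eq (by positivity : (0:ℤ) ≤ n)).1 hz with h1 | h1
      · exact ⟨_, dmapT h1 hN hc⟩
      · exact ⟨_, dmapB h1 hN hc⟩
    obtain ⟨θ, hθ⟩ := hD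
    have h1 := prob hθ hc hNn hx0 hx1.le
    have hxa' : 1 ≤ (1 - x) * ((a + 1 : ℕ) : ℝ) ^ (3 / 4 : ℝ) := by
      refine hxa.trans (mul_le_mul_of_nonneg_left ?_ (by linarith))
      exact Real.rpow_le_rpow (by positivity) (by push_cast; linarith) (by norm_num)
    have h2 := hY (a + 1) (N - 1) x (by omega) hc hx0 hx1 hxa'
    have hN1 : ((N - 1 : ℕ) : ℝ) = (N:ℝ) - 1 := by
      rw [Nat.cast_sub (by omega)]; simp
    have hN3 : (3:ℝ) ≤ N := by
      have : 3 ≤ N := by omega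
      exact_mod_cast this
    have h3 : ((a + 1 : ℕ) : ℝ) / ((N - 1 : ℕ) : ℝ) ≤ 4 * ((a:ℝ) / N) := by
      rw [hN1, div_le_iff₀ (by linarith), mul_div_assoc', div_mul_eq_mul_div,
        le_div_iff₀ (by linarith)]
      push_cast
      nlinarith
    have h4 : (((a + 1 : ℕ) : ℝ) / ((N - 1 : ℕ) : ℝ)) ^ (11 / 6 : ℝ) ≤
        4 ^ (11 / 6 : ℝ) * ((a:ℝ) / N) ^ (11 / 6 : ℝ) := by
      rw [← Real.mul_rpow (by norm_num) (by positivity)]
      exact Real.rpow_le_rpow (by positivity) h3 (by norm_num)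
    calc _ ≤ _ := h1
      _ ≤ C * (((a + 1 : ℕ) : ℝ) / ((N - 1 : ℕ) : ℝ)) ^ (11 / 6 : ℝ) := h2
      _ ≤ C * (4 ^ (11 / 6 : ℝ) * ((a:ℝ) / N) ^ (11 / 6 : ℝ)) :=
        mul_le_mul_of_nonneg_left h4 hC.le
      _ ≤ (C * 4 ^ (11 / 6 : ℝ) + 4) * ((a:ℝ) / N) ^ (11 / 6 : ℝ) := by nlinarith
  · have okp : ∀ e : Edg, 0 ≤ (hp e : ℝ) ∧ (hp e : ℝ) ≤ 1 := by
      intro e; unfold hp; norm_num
    have h1 := P2_le_Pr ok (UE n z a N) (UE n z a N)
    have h2 := Pr_le_one okp (boxE n) (UE n z a N)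
    have h3 : (1:ℝ) / 2 ≤ (a:ℝ) / N := by
      have : N ≤ 2 * a := by omega
      have h5 : (N:ℝ) ≤ 2 * a := by exact_mod_cast this
      rw [div_le_div_iff₀ (by norm_num) (by linarith)]
      linarith
    have h4 : (1:ℝ) / 4 ≤ ((a:ℝ) / N) ^ (11 / 6 : ℝ) := by
      calc (1:ℝ) / 4 = (1 / 2 : ℝ) ^ (2:ℝ) := by norm_num
        _ ≤ (1 / 2 : ℝ) ^ (11 / 6 : ℝ) :=
          Real.rpow_le_rpow_of_exponent_ge (by norm_num) (by norm_num) (by norm_num)
        _ ≤ _ := Real.rpow_le_rpow (by norm_num) h3 (by norm_num)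
    have h6 : 0 < C * (4:ℝ) ^ (11 / 6 : ℝ) := by positivity
    nlinarith

end Pool.Agent.Y185.SN
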